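import Pool.Agent.H.MP_50e481_nt.A

namespace Pool.Agent.Results.MP_50e481_nt.Bose

def Aff {M : ℕ} (A B : Set (ZMod M)) : Prop :=
  ∃ (d : ℤ) (s : ZMod M), Int.gcd d M = 1 ∧ B = (fun a => (d : ZMod M) * a + s) '' A

variable (F : Type) {K : Type} [Field F] [Field K] [Algebra F K]

def Adm (n : ℕ) (θ : K) (b : ℕ) : Prop := (minpoly F (θ ^ b)).natDegree = n

def BoseSet (M : ℕ) (θ : K) (b : ℕ) : Set (ZMod M) :=
  {a | ∃ v : F, θ ^ a.val = θ ^ b + algebraMap F K v}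

def Rel (p q h : ℕ) (θ : K) (b e : ℕ) : Prop := Adm F h θ b ∧ Adm F h θ e ∧
  (b ≡ e [MOD (q ^ h - 1) / (q - 1)] ∨ (∃ v : F, θ ^ b - θ ^ e = algebraMap F K v) ∨
    ∃ i : ℕ, b ≡ p ^ i * e [MOD q ^ h - 1])

open Pool.Agent.H.MP_50e481_nt.A

theorem z3 (v : ZMod 3) : v = 0 ∨ v = 1 ∨ v = 2 := by
  revert v
  decide

theorem bose {θ : GaloisField 3 6} (o : orderOf θ = 728) (b c d : ℕ) (h1 : θ ^ b + 1 = θ ^ c)
    (h2 : θ ^ b + 2 = θ ^ d) : BoseSet (ZMod 3) 728 θ b = {(b : ZMod 728), (c : ZMod 728), (d : ZMod 728)} := by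
  ext a
  simp only [BoseSet, Set.mem_ofPred_eq, Set.mem_insert_iff, Set.mem_singleton_iff, ← pv o, ← h1, ← h2]
  constructor
  · rintro ⟨v, h⟩
    rcases z3 v with rfl | rfl | rfl <;> simp_all [map_ofNat]
  · rintro (h | h | h)
    exacts [⟨0, by simpa using h⟩, ⟨1, by simpa using h⟩, ⟨2, by simpa [map_ofNat] using h⟩]

theorem result : ∃ θ : GaloisField 3 6, orderOf θ = 3 ^ 6 - 1 ∧ ∃ b e : ℕ,
    Adm (ZMod 3) 6 θ b ∧ Adm (ZMod 3) 6 θ e ∧
    Aff (BoseSet (ZMod 3) (3 ^ 6 - 1) θ b) (BoseSet (ZMod 3) (3 ^ 6 - 1) θ e) ∧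
    ¬ Relation.EqvGen (Rel (ZMod 3) 3 3 6 θ) b e := by
  obtain ⟨θ, h⟩ := gen3
  have o := ord3 h
  refine ⟨θ, o, 37, 67, deg 3 6 (by decide) θ _ _ o (by decide) (by decide),
    deg 3 6 (by decide) θ _ _ o (by decide) (by decide), ⟨23, 672, by decide, ?_⟩, fun e => ?_⟩
  · change BoseSet (ZMod 3) 728 θ 67 = (fun a => ((23 : ℤ) : ZMod 728) * a + 672) '' BoseSet (ZMod 3) 728 θ 37
    rw [bose o 37 70 635 (by grind) (by grind), bose o 67 98 717 (by grind) (by grind),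
      Set.image_insert_eq, Set.image_pair]
    apply Set.ext
    decide +kernel
  have key (b e : ℕ) (r : Relation.EqvGen (Rel (ZMod 3) 3 3 6 θ) b e) :
      P (θ ^ b) = 0 ↔ P (θ ^ e) = 0 := by
    induction r with
    | rel b e r =>
      obtain ⟨-, -, r | ⟨v, r⟩ | ⟨i, r⟩⟩ := r
      · have := (pw o (by decide) _ _).2 (r.mul_right' 2)
        rw [pow_mul, pow_mul] at this
        rw [show P (θ ^ b) = P (θ ^ e) by unfold P; grind]
      · rw [show P (θ ^ b) = P (θ ^ e) by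
          unfold P
          rcases z3 v with rfl | rfl | rfl <;> simp only [map_zero, map_one, map_ofNat] at r <;> grind]
      · rw [(pw o (by decide) _ _).2 r, mul_comm, pow_mul, P_frob]
    | refl => rfl
    | symm _ _ _ ih => exact ih.symm
    | trans _ _ _ _ _ h1 h2 => exact h1.trans h2
  have := (key _ _ e).1 (by unfold P; grind)
  rw [P, show ((θ ^ 67) ^ 3 - θ ^ 67) ^ 2 = θ ^ 308 by grind] at this
  clear key
  grind

end Pool.Agent.Results.MP_50e481_nt.Bose
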