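import Pool.Agent.H.MP_50e481_nt.A

namespace Pool.Agent.Results.MP_50e481_nt.Singer

def Aff {M : ℕ} (A B : Set (ZMod M)) : Prop :=
  ∃ (d : ℤ) (s : ZMod M), Int.gcd d M = 1 ∧ B = (fun a => (d : ZMod M) * a + s) '' A

variable (F : Type) {K : Type} [Field F] [Field K] [Algebra F K]

def Adm (n : ℕ) (θ : K) (b : ℕ) : Prop := (minpoly F (θ ^ b)).natDegree = n

def SingerSet (M : ℕ) (θ : K) (b : ℕ) : Set (ZMod M) :=
  {a | ∃ u v : F, θ ^ a.val = algebraMap F K u * θ ^ b + algebraMap F K v}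

def Rel (p q h : ℕ) (θ : K) (b e : ℕ) : Prop := Adm F (h + 1) θ b ∧ Adm F (h + 1) θ e ∧
  (b ≡ e [MOD (q ^ (h + 1) - 1) / (q - 1)] ∨ (∃ i : ℕ, b ≡ p ^ i * e [MOD q ^ (h + 1) - 1]) ∨
    (∃ v : F, θ ^ b - θ ^ e = algebraMap F K v) ∨
    ∃ r t w c : F, (r, t) ≠ (0, 0) ∧ algebraMap F K r * θ ^ b + algebraMap F K t * θ ^ (e + b) +
      algebraMap F K w * θ ^ e = algebraMap F K c)

open Pool.Agent.H.MP_50e481_nt.A

theorem z2 (v : ZMod 2) : v = 0 ∨ v = 1 := by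
  revert v
  decide

theorem z2' (v : ZMod 2) : algebraMap (ZMod 2) (GaloisField 2 10) v = 0 ∨
    algebraMap (ZMod 2) (GaloisField 2 10) v = 1 := by
  rcases z2 v with rfl | rfl <;> simp

theorem singer {θ : GaloisField 2 10} (o : orderOf θ = 1023) (h0 : θ ≠ 0) (b c : ℕ)
    (h1 : θ ^ b + 1 = θ ^ c) :
    SingerSet (ZMod 2) 1023 θ b = {((0 : ℕ) : ZMod 1023), (b : ZMod 1023), (c : ZMod 1023)} := by
  ext a
  simp only [SingerSet, Set.mem_ofPred_eq, Set.mem_insert_iff, Set.mem_singleton_iff, ← pv o, ← h1]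
  constructor
  · rintro ⟨u, v, h⟩
    rcases z2 u with rfl | rfl <;> rcases z2 v with rfl | rfl <;> simp_all
  · rintro (h | h | h)
    exacts [⟨0, 1, by simpa using h⟩, ⟨1, 0, by simpa using h⟩, ⟨1, 1, by simpa using h⟩]

theorem ne1 {θ : GaloisField 2 10} {b : ℕ} (h : Adm (ZMod 2) (9 + 1) θ b) : θ ^ b + 1 ≠ 0 := by
  intro e
  rw [Adm, show θ ^ b = 1 by grind, minpoly.one, ← Polynomial.C_1,
    Polynomial.natDegree_X_sub_C] at h
  omega

theorem result : ∃ θ : GaloisField 2 10, orderOf θ = 2 ^ 10 - 1 ∧ ∃ b e : ℕ,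
    Adm (ZMod 2) 10 θ b ∧ Adm (ZMod 2) 10 θ e ∧
    Aff (SingerSet (ZMod 2) ((2 ^ 10 - 1) / (2 - 1)) θ b)
      (SingerSet (ZMod 2) ((2 ^ 10 - 1) / (2 - 1)) θ e) ∧
    ¬ Relation.EqvGen (Rel (ZMod 2) 2 2 9 θ) b e := by
  obtain ⟨θ, h⟩ := gen2
  have o := ord2 h
  have h0 : θ ≠ 0 := by grind
  refine ⟨θ, o, 31, 85, deg 2 10 (by decide) θ _ _ o (by decide) (by decide),
    deg 2 10 (by decide) θ _ _ o (by decide) (by decide), ⟨212, 0, by decide, ?_⟩, fun e => ?_⟩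
  · change SingerSet (ZMod 2) 1023 θ 85 =
      (fun a => ((212 : ℤ) : ZMod 1023) * a + 0) '' SingerSet (ZMod 2) 1023 θ 31
    rw [singer o h0 31 758 (by grind), singer o h0 85 434 (by grind),
      Set.image_insert_eq, Set.image_pair]
    apply Set.ext
    decide +kernel
  have key (b e : ℕ) (r : Relation.EqvGen (Rel (ZMod 2) 2 2 9 θ) b e) :
      R (θ ^ b) = 0 ↔ R (θ ^ e) = 0 := by
    induction r with
    | rel b e r =>
      obtain ⟨h1, h2, r | ⟨i, r⟩ | ⟨v, r⟩ | ⟨r, t, w, c, n, e⟩⟩ := r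
      · rw [(pw o (by decide) _ _).2 r]
      · rw [(pw o (by decide) _ _).2 r, mul_comm, pow_mul, R_frob]
      · rw [R, R, J_mob _ _ 1 0 1 _ (pow_ne_zero b h0) (ne1 h1) (pow_ne_zero e h0) (ne1 h2)
          (.inr rfl) (.inl rfl) (.inr rfl) (z2' v) (by simp) (by grind)]
      · rw [R, R, J_mob _ _ _ _ _ _ (pow_ne_zero b h0) (ne1 h1) (pow_ne_zero _ h0) (ne1 h2)
          (z2' r) (z2' t) (z2' w) (z2' c) (by simpa using n) (by rw [← pow_add, e])]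
    | refl => rfl
    | symm _ _ _ ih => exact ih.symm
    | trans _ _ _ _ _ h1 h2 => exact h1.trans h2
  have j1 : J (θ ^ 31) = θ ^ 6 + θ ^ 4 + θ ^ 3 + θ := by
    clear key
    rw [show θ ^ 31 = θ ^ 7 + θ ^ 4 + θ ^ 3 + θ + 1 by grind, J, div_eq_iff (by grind)]
    grind
  have j2 : J (θ ^ 85) = θ ^ 9 + θ ^ 5 + θ ^ 4 + θ ^ 2 + θ + 1 := by
    clear key
    rw [show θ ^ 85 = θ ^ 9 + θ ^ 8 by grind, J, div_eq_iff (by grind)]
    grind
  have := (key _ _ e).1 (by rw [R, j1]; clear key j1 j2; grind)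
  rw [R, j2] at this
  clear key j1 j2
  grind

end Pool.Agent.Results.MP_50e481_nt.Singer
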